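import Pool.Agent.H698ST.Star

set_option autoImplicit false

/-! # Out-stars with a few further in-neighbours of the leaves -/

namespace Pool.Agent.H698ST

open Finset Classical

/-- The oriented tree which consists of a centre `none`, arcs from the centre to `d` leaves
`inl i`, and `m` further vertices `inr j`, each with one arc to the leaf `inl (g j)`. -/
def nearStar (d m : ℕ) (g : Fin m → Fin d) :
    Option (Fin d ⊕ Fin m) → Option (Fin d ⊕ Fin m) → Prop
  | none, some (Sum.inl _) => True
  | some (Sum.inr j), some (Sum.inl i) => g j = i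
  | _, _ => False

theorem embed {V : Type} (D : V → V → Prop) (hD : IsOriented D) (d m : ℕ) (g : Fin m → Fin d)
    (v : V) (N U W : Finset V) (hN : ∀ u ∈ N, D v u) (hU : U ⊆ N) (hUm : m ≤ U.card)
    (hW : v ∉ W) (hUW : ∀ u ∈ U, 2 * m ≤ (W.filter (fun w => D w u)).card ∨
      (Disjoint W N ∧ m ≤ (W.filter (fun w => D w u)).card))
    (hNW : ∀ M : Finset V, M ⊆ W → M.card ≤ m → d ≤ (N \ M).card) :
    Contains D (nearStar d m g) := by
  have irr : ∀ u, ¬ D u u := fun u h => hD u u h h
  let I : Finset (Fin d) := Finset.univ.image g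
  have hI : I.card ≤ m := by
    refine Finset.card_image_le.trans ?_
    rw [Finset.card_univ, Fintype.card_fin]
  have e0' : Nonempty ({x // x ∈ I} ↪ {x // x ∈ U}) := by
    apply Function.Embedding.nonempty_of_card_le
    rw [Fintype.card_coe, Fintype.card_coe]
    omega
  obtain ⟨e0⟩ := e0'
  let E : Finset V := (Finset.univ : Finset {x // x ∈ I}).image (fun x => (e0 x).1)
  have hE : E.card = I.card := by
    rw [Finset.card_image_of_injective, Finset.card_univ, Fintype.card_coe]
    intro x y hxy
    exact e0.injective (Subtype.ext hxy)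
  have hEm : ∀ x, (e0 x).1 ∈ E := fun x => Finset.mem_image.2 ⟨x, Finset.mem_univ _, rfl⟩
  have hg : ∀ j, g j ∈ I := fun j => Finset.mem_image.2 ⟨j, Finset.mem_univ _, rfl⟩
  let t : Fin m → Finset V := fun j => (W.filter (fun w => D w (e0 ⟨g j, hg j⟩).1)) \ E
  have ht : ∀ j, m ≤ (t j).card := by
    intro j
    have h1 := hUW (e0 ⟨g j, hg j⟩).1 (e0 ⟨g j, hg j⟩).2
    have h2 := Finset.le_card_sdiff E (W.filter (fun w => D w (e0 ⟨g j, hg j⟩).1))
    simp only [t]
    rcases h1 with h1 | ⟨h0, h1⟩
    · omega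
    · rw [Finset.sdiff_eq_self_iff_disjoint.2]
      · exact h1
      · rw [Finset.disjoint_left]
        intro w hw hwE
        obtain ⟨x, -, rfl⟩ := Finset.mem_image.1 hwE
        exact Finset.disjoint_left.1 h0 (Finset.mem_filter.1 hw).1 (hU (e0 x).2)
  have hall : ∀ s : Finset (Fin m), s.card ≤ (s.biUnion t).card := by
    intro s
    rcases s.eq_empty_or_nonempty with rfl | ⟨j, hj⟩
    · simp
    · have h1 : s.card ≤ m := by
        have := Finset.card_le_univ s
        rwa [Fintype.card_fin] at this
      have h2 : (t j).card ≤ (s.biUnion t).card :=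
        Finset.card_le_card (Finset.subset_biUnion_of_mem t hj)
      have h3 := ht j
      omega
  obtain ⟨w, hw1, hw2⟩ := (Finset.all_card_le_biUnion_card_iff_exists_injective t).1 hall
  let M : Finset V := Finset.univ.image w
  have hM1 : M ⊆ W := by
    intro x hx
    obtain ⟨j, -, rfl⟩ := Finset.mem_image.1 hx
    exact (Finset.mem_filter.1 (Finset.mem_sdiff.1 (hw2 j)).1).1
  have hM2 : M.card ≤ m := by
    refine Finset.card_image_le.trans ?_
    rw [Finset.card_univ, Fintype.card_fin]
  have hwM : ∀ j, w j ∈ M := fun j => Finset.mem_image.2 ⟨j, Finset.mem_univ _, rfl⟩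
  let R : Finset V := (N \ M) \ E
  have hR : d - I.card ≤ R.card := by
    have h1 := hNW M hM1 hM2
    have h2 := Finset.le_card_sdiff E (N \ M)
    simp only [R]
    omega
  have r' : Nonempty ({x : Fin d // x ∈ Iᶜ} ↪ {x // x ∈ R}) := by
    apply Function.Embedding.nonempty_of_card_le
    rw [Fintype.card_coe, Fintype.card_coe, Finset.card_compl, Fintype.card_fin]
    exact hR
  obtain ⟨r⟩ := r'
  let a : Fin d → V := fun x =>
    if h : x ∈ I then (e0 ⟨x, h⟩).1 else (r ⟨x, Finset.mem_compl.2 h⟩).1
  have ha1 : ∀ x (h : x ∈ I), a x = (e0 ⟨x, h⟩).1 := fun x h => dif_pos h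
  have ha2 : ∀ x (h : x ∉ I), a x = (r ⟨x, Finset.mem_compl.2 h⟩).1 := fun x h => dif_neg h
  have hrR : ∀ x, (r x).1 ∈ N ∧ (r x).1 ∉ M ∧ (r x).1 ∉ E := by
    intro x
    have h := (r x).2
    simp only [R, Finset.mem_sdiff] at h
    exact ⟨h.1.1, h.1.2, h.2⟩
  have haN : ∀ x, a x ∈ N := by
    intro x
    by_cases h : x ∈ I
    · rw [ha1 x h]
      exact hU (e0 ⟨x, h⟩).2
    · rw [ha2 x h]
      exact (hrR _).1
  have hainj : Function.Injective a := by
    intro x y hxy
    by_cases hx : x ∈ I
    · by_cases hy : y ∈ I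
      · rw [ha1 x hx, ha1 y hy] at hxy
        have := e0.injective (Subtype.ext hxy)
        simpa using this
      · rw [ha1 x hx, ha2 y hy] at hxy
        exact absurd (hxy ▸ hEm ⟨x, hx⟩) (hrR _).2.2
    · by_cases hy : y ∈ I
      · rw [ha2 x hx, ha1 y hy] at hxy
        exact absurd (hxy.symm ▸ hEm ⟨y, hy⟩) (hrR _).2.2
      · rw [ha2 x hx, ha2 y hy] at hxy
        have := r.injective (Subtype.ext hxy)
        simpa using this
  have haw : ∀ x j, a x ≠ w j := by
    intro x j h
    by_cases hx : x ∈ I
    · rw [ha1 x hx] at h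
      exact (Finset.mem_sdiff.1 (hw2 j)).2 (h ▸ hEm ⟨x, hx⟩)
    · rw [ha2 x hx] at h
      exact (hrR ⟨x, Finset.mem_compl.2 hx⟩).2.1 (h ▸ hwM j)
  have hva : ∀ x, v ≠ a x := fun x h => irr v (by
    have := hN _ (haN x)
    rwa [← h] at this)
  have hvw : ∀ j, v ≠ w j := fun j h => hW (by
    have := hM1 (hwM j)
    rwa [← h] at this)
  let f : Option (Fin d ⊕ Fin m) → V := fun x => match x with
    | none => v
    | some (Sum.inl i) => a i
    | some (Sum.inr i) => w i
  refine ⟨f, ?_, ?_⟩
  · rintro (_ | i | i) (_ | j | j) hij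
    · rfl
    · exact absurd hij (hva j)
    · exact absurd hij (hvw j)
    · exact absurd hij.symm (hva i)
    · have h : a i = a j := hij
      rw [hainj h]
    · exact absurd hij (haw i j)
    · exact absurd hij.symm (hvw i)
    · exact absurd hij.symm (haw j i)
    · have h : w i = w j := hij
      rw [hw1 h]
  · rintro (_ | i | i) (_ | j | j) hij
    · exact absurd hij (by simp [nearStar])
    · exact hN _ (haN j)
    · exact absurd hij (by simp [nearStar])
    · exact absurd hij (by simp [nearStar])
    · exact absurd hij (by simp [nearStar])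
    · exact absurd hij (by simp [nearStar])
    · exact absurd hij (by simp [nearStar])
    · have h : g i = j := hij
      subst h
      change D (w i) (a (g i))
      rw [ha1 _ (hg i)]
      exact (Finset.mem_filter.1 (Finset.mem_sdiff.1 (hw2 i)).1).2
    · exact absurd hij (by simp [nearStar])

end Pool.Agent.H698ST
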