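import Pool.Agent.H698ST.Broom

set_option autoImplicit false

/-! # Out-stars with a few further in-neighbours of the leaves: the degree argument -/

namespace Pool.Agent.H698ST

open Finset Classical

/-- arcs inside a set of an oriented graph -/
theorem two_mul_arcs {V : Type} (D : V → V → Prop) (hD : IsOriented D) (N : Finset V) :
    2 * ∑ u ∈ N, (N.filter (fun w => D w u)).card ≤ N.card * (N.card - 1) := by
  have h1 : ∑ u ∈ N, ((N.filter (fun w => D u w)).card + (N.filter (fun w => D w u)).card) ≤
      ∑ u ∈ N, (N.card - 1) := by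
    apply Finset.sum_le_sum
    intro u hu
    rw [← Finset.card_union_of_disjoint, ← Finset.card_erase_of_mem hu]
    · apply Finset.card_le_card
      intro w hw
      rw [Finset.mem_union, Finset.mem_filter, Finset.mem_filter] at hw
      rw [Finset.mem_erase]
      rcases hw with hw | hw
      · exact ⟨fun h => hD u u (h ▸ hw.2) (h ▸ hw.2), hw.1⟩
      · exact ⟨fun h => hD u u (h ▸ hw.2) (h ▸ hw.2), hw.1⟩
    · rw [Finset.disjoint_left]
      intro w hw hw'
      exact hD _ _ (Finset.mem_filter.1 hw).2 (Finset.mem_filter.1 hw').2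
  rw [Finset.sum_add_distrib, sum_out_eq_sum_in, Finset.sum_const, smul_eq_mul] at h1
  omega

/-- double counting of arcs between two sets -/
theorem arcs_between {V : Type} (D : V → V → Prop) (X Y : Finset V) :
    ∑ x ∈ X, (Y.filter (fun u => D x u)).card = ∑ u ∈ Y, (X.filter (fun x => D x u)).card := by
  have := Finset.sum_card_bipartiteAbove_eq_sum_card_bipartiteBelow (s := X) (t := Y) D
  simpa [Finset.bipartiteAbove, Finset.bipartiteBelow] using this

theorem broom_low {V : Type} (D : V → V → Prop) (hD : IsOriented D) (d m : ℕ) (g : Fin m → Fin d)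
    (hm : 3 * m + 1 ≤ d) (hq : 6 * d * m + m * m + 2 < d * d + 3 * d + 3 * m ∨ m = 0)
    (hc : ¬ Contains D (nearStar d m g)) (S : Finset V)
    (hS : S.Nonempty) :
    ∃ v ∈ S, (S.filter (fun u => (SimpleGraph.fromRel D).Adj v u)).card < 2 * d - 1 := by
  by_contra hcon
  push Not at hcon
  have irr : ∀ u, ¬ D u u := fun u h => hD u u h h
  have hdeg : ∀ v ∈ S, 2 * d - 1 ≤
      (S.filter (fun u => D v u)).card + (S.filter (fun u => D u v)).card := fun v hv =>
    (hcon v hv).trans (adj_card_le D S v)
  -- step 1: no vertex has large out-degree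
  have step1 : ∀ v ∈ S, (S.filter (fun u => D v u)).card < d + m := by
    by_contra hX
    push Not at hX
    obtain ⟨x0, hx0, hx0'⟩ := hX
    let X := S.filter (fun v => d + m ≤ (S.filter (fun u => D v u)).card)
    let Y := X.filter (fun u => (S.filter (fun w => D w u)).card ≤ 2 * m)
    have hXne : x0 ∈ X := Finset.mem_filter.2 ⟨hx0, hx0'⟩
    have hbig : ∀ x ∈ X, d + 1 ≤ (Y.filter (fun u => D x u)).card ∧ 1 ≤ m := by
      intro x hx
      have hxS := (Finset.mem_filter.1 hx).1
      have hxo := (Finset.mem_filter.1 hx).2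
      let N := S.filter (fun u => D x u)
      let U := N.filter (fun u => 2 * m + 1 ≤ (S.filter (fun w => D w u)).card)
      have hU : U.card < m := by
        by_contra hU
        apply hc
        refine embed D hD d m g x N U (S.erase x) (fun u hu => (Finset.mem_filter.1 hu).2)
          (Finset.filter_subset _ _) (by omega) (Finset.notMem_erase x S) ?_ ?_
        · intro u hu
          have h1 := (Finset.mem_filter.1 hu).2
          have h2 : (S.filter (fun w => D w u)).card ≤
              ((S.erase x).filter (fun w => D w u)).card + 1 := by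
            rw [Finset.filter_erase]
            have := Finset.pred_card_le_card_erase (s := S.filter (fun w => D w u)) (a := x)
            omega
          left
          omega
        · intro M _ hM
          have h1 := Finset.le_card_sdiff M N
          have h2 : d + m ≤ N.card := hxo
          omega
      have hNU : (N.filter (fun u => ¬ (2 * m + 1 ≤ (S.filter (fun w => D w u)).card))) ⊆
          Y.filter (fun u => D x u) := by
        intro u hu
        rw [Finset.mem_filter] at hu
        have huN := Finset.mem_filter.1 hu.1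
        have h1 := hdeg u huN.1
        have h2 := hu.2
        rw [Finset.mem_filter]
        refine ⟨Finset.mem_filter.2 ⟨Finset.mem_filter.2 ⟨huN.1, by omega⟩, by omega⟩, huN.2⟩
      have h3 := Finset.card_le_card hNU
      have h4 := Finset.card_filter_add_card_filter_not (s := N)
        (fun u => 2 * m + 1 ≤ (S.filter (fun w => D w u)).card)
      have h5 : d + m ≤ N.card := hxo
      have h6 : (N.filter (fun u => 2 * m + 1 ≤ (S.filter (fun w => D w u)).card)).card < m := hU
      constructor
      · omega
      · omega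
    have hm1 : 1 ≤ m := (hbig x0 hXne).2
    have h1 : ∑ x ∈ X, (d + 1) ≤ ∑ x ∈ X, (Y.filter (fun u => D x u)).card :=
      Finset.sum_le_sum (fun x hx => (hbig x hx).1)
    rw [arcs_between] at h1
    have h2 : ∑ u ∈ Y, (X.filter (fun x => D x u)).card ≤ ∑ u ∈ Y, 2 * m := by
      apply Finset.sum_le_sum
      intro u hu
      refine le_trans (Finset.card_le_card ?_) (Finset.mem_filter.1 hu).2
      exact Finset.filter_subset_filter _ (Finset.filter_subset _ _)
    rw [Finset.sum_const, smul_eq_mul] at h1 h2
    have h3 : Y.card ≤ X.card := Finset.card_le_card (Finset.filter_subset _ _)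
    have h4 : 1 ≤ X.card := Finset.card_pos.2 ⟨x0, hXne⟩
    have h5 : X.card * (d + 1) ≤ X.card * (2 * m) :=
      (h1.trans h2).trans (Nat.mul_le_mul_right _ h3)
    have h6 := Nat.le_of_mul_le_mul_left h5 h4
    omega
  -- step 2: a vertex of out-degree at least `d`
  have step2 : ∃ v ∈ S, d ≤ (S.filter (fun u => D v u)).card := by
    by_contra hno
    push Not at hno
    obtain ⟨v, hv, h⟩ := exists_low D S hS (d - 1) (fun v hv => by
      have := hno v hv
      omega)
    have := hcon v hv
    omega
  obtain ⟨v, hv, hvd⟩ := step2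
  have hvm := step1 v hv
  let N := S.filter (fun u => D v u)
  let W := (S.erase v) \ N
  let U := N.filter (fun u => (N.filter (fun w => D w u)).card + 2 * m + 1 ≤ d)
  have hWN : Disjoint W N := by
    rw [Finset.disjoint_left]
    intro w hw
    exact (Finset.mem_sdiff.1 hw).2
  have hN1 : d ≤ N.card := hvd
  have hN2 : N.card < d + m := hvm
  have hU : U.card < m := by
    by_contra hU
    apply hc
    refine embed D hD d m g v N U W (fun u hu => (Finset.mem_filter.1 hu).2)
      (Finset.filter_subset _ _) (by omega) ?_ ?_ ?_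
    · intro h
      exact Finset.notMem_erase v S (Finset.mem_sdiff.1 h).1
    · intro u hu
      have huU := Finset.mem_filter.1 hu
      have huS := (Finset.mem_filter.1 huU.1).1
      have h1 := hdeg u huS
      have h2 := step1 u huS
      have h3 : (S.filter (fun w => D w u)).card ≤
          (W.filter (fun w => D w u)).card + ((N.filter (fun w => D w u)).card + 1) := by
        have hsub : S.filter (fun w => D w u) ⊆
            (W.filter (fun w => D w u)) ∪ ((N.filter (fun w => D w u)) ∪ {v}) := by
          intro w hw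
          rw [Finset.mem_filter] at hw
          by_cases hwv : w = v
          · subst hwv
            simp
          · by_cases hwN : w ∈ N
            · rw [Finset.mem_union, Finset.mem_union, Finset.mem_filter (s := N)]
              exact Or.inr (Or.inl ⟨hwN, hw.2⟩)
            · rw [Finset.mem_union, Finset.mem_filter (s := W)]
              exact Or.inl ⟨Finset.mem_sdiff.2 ⟨Finset.mem_erase.2 ⟨hwv, hw.1⟩, hwN⟩, hw.2⟩
        refine (Finset.card_le_card hsub).trans ((Finset.card_union_le _ _).trans ?_)
        have := Finset.card_union_le (N.filter (fun w => D w u)) {v}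
        rw [Finset.card_singleton] at this
        omega
      have h4 := huU.2
      right
      refine ⟨hWN, ?_⟩
      omega
    · intro M hM _
      have : N \ M = N := by
        rw [Finset.sdiff_eq_self_iff_disjoint, Finset.disjoint_left]
        intro w hw hwM
        exact (Finset.mem_sdiff.1 (hM hwM)).2 hw
      rw [this]
      exact hN1
  have hm1 : 1 ≤ m := by omega
  have h1 : ((N.card : ℤ) - m + 1) * ((d : ℤ) - 2 * m) ≤
      ∑ u ∈ N, ((N.filter (fun w => D w u)).card : ℤ) := by
    have h2 := Finset.card_filter_add_card_filter_not (s := N)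
      (fun u => (N.filter (fun w => D w u)).card + 2 * m + 1 ≤ d)
    have h3 : (N.filter (fun u => (N.filter (fun w => D w u)).card + 2 * m + 1 ≤ d)).card < m := hU
    have h4 : ∑ u ∈ N.filter (fun u => ¬ ((N.filter (fun w => D w u)).card + 2 * m + 1 ≤ d)),
        ((d : ℤ) - 2 * m) ≤
        ∑ u ∈ N.filter (fun u => ¬ ((N.filter (fun w => D w u)).card + 2 * m + 1 ≤ d)),
          ((N.filter (fun w => D w u)).card : ℤ) := by
      apply Finset.sum_le_sum
      intro u hu
      have := (Finset.mem_filter.1 hu).2
      omega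
    have h5 : ∑ u ∈ N.filter (fun u => ¬ ((N.filter (fun w => D w u)).card + 2 * m + 1 ≤ d)),
          ((N.filter (fun w => D w u)).card : ℤ) ≤
        ∑ u ∈ N, ((N.filter (fun w => D w u)).card : ℤ) := by
      apply Finset.sum_le_sum_of_subset_of_nonneg (Finset.filter_subset _ _)
      intro _ _ _
      positivity
    rw [Finset.sum_const, nsmul_eq_mul] at h4
    refine le_trans ?_ (h4.trans h5)
    apply mul_le_mul_of_nonneg_right
    · omega
    · omega
  have h2 := two_mul_arcs D hD N
  have h3 : (2 : ℤ) * ∑ u ∈ N, ((N.filter (fun w => D w u)).card : ℤ) ≤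
      (N.card : ℤ) * ((N.card : ℤ) - 1) := by
    have h4 : ((N.card - 1 : ℕ) : ℤ) = (N.card : ℤ) - 1 := by
      have : 1 ≤ N.card := by omega
      push_cast [Nat.cast_sub this]
      ring
    rw [← h4]
    exact_mod_cast h2
  have hn1 : (d : ℤ) ≤ N.card := by exact_mod_cast hN1
  have hn2 : (N.card : ℤ) + 1 ≤ d + m := by exact_mod_cast hN2
  have hmz : (1 : ℤ) ≤ m := by exact_mod_cast hm1
  have hqz : 6 * (d : ℤ) * m + m * m + 2 < d * d + 3 * d + 3 * m := by
    rcases hq with hq | hq
    · exact_mod_cast hq
    · omega
  generalize (N.card : ℤ) = n at h1 h3 hn1 hn2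
  generalize (∑ u ∈ N, ((N.filter (fun w => D w u)).card : ℤ)) = s at h1 h3
  have hn2' : (0 : ℤ) ≤ d + m - 1 - n := by linarith
  nlinarith [mul_nonneg (by linarith : (0 : ℤ) ≤ n - d) hn2',
    mul_nonneg (by linarith : (0 : ℤ) ≤ 5 * (m : ℤ) - 2) hn2']

theorem nearStar_color (d m : ℕ) (g : Fin m → Fin d) (hm : 3 * m + 1 ≤ d)
    (hq : 6 * d * m + m * m + 2 < d * d + 3 * d + 3 * m ∨ m = 0) (V : Type)
    [Finite V] (D : V → V → Prop) (hD : IsOriented D) (hc : ¬ Contains D (nearStar d m g)) :
    (SimpleGraph.fromRel D).Colorable (2 * d - 1) := by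
  have := Fintype.ofFinite V
  obtain ⟨c, c1, c2⟩ := greedy (SimpleGraph.fromRel D) (2 * d - 1) Finset.univ (by
    intro S _ hS
    obtain ⟨v, hv, h⟩ := broom_low D hD d m g hm hq hc S hS
    refine ⟨v, hv, lt_of_le_of_lt (le_of_eq ?_) h⟩
    congr)
  refine ⟨SimpleGraph.Coloring.mk
    (fun v => (⟨c v, c1 v (Finset.mem_univ _)⟩ : Fin (2 * d - 1))) ?_⟩
  intro u v huv heq
  exact c2 u (Finset.mem_univ _) v (Finset.mem_univ _) huv (by simpa using heq)

theorem nearStar_result (d m : ℕ) (g : Fin m → Fin d) (hm : 3 * m + 1 ≤ d)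
    (hq : 6 * d * m + m * m + 2 < d * d + 3 * d + 3 * m ∨ m = 0) :
    IsLeast (TSet (nearStar d m g)) (2 * d) ∧ IsLeast (CSet (nearStar d m g)) (2 * d) := by
  have h := master (nearStar d m g) (2 * d - 1)
    (fun V _ D hD hc => nearStar_color d m g hm hq V D hD hc) (by
      obtain ⟨D, hD, h1, -⟩ := regular d
      refine ⟨D, hD, ?_⟩
      rintro ⟨f, hf, hT⟩
      refine h1 (f none) ⟨fun i => f (some (Sum.inl i)), ?_, fun i => hT _ _ trivial⟩
      intro i j hij
      have := hf hij
      simpa using this)
  have h2 : 2 * d - 1 + 1 = 2 * d := by omega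
  rwa [h2] at h

end Pool.Agent.H698ST
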