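import Pool.Agent.H698ST.Broom2

set_option autoImplicit false

/-! # Out-stars with one arc leaving a leaf -/

namespace Pool.Agent.H698ST

open Finset Classical

/-- The oriented tree which consists of a centre `none`, arcs from the centre to `d` vertices
`inl i`, and one further vertex `inr ()` with an arc from `inl i0` to it. -/
def farStar (d : ℕ) (i0 : Fin d) :
    Option (Fin d ⊕ Unit) → Option (Fin d ⊕ Unit) → Prop
  | none, some (Sum.inl _) => True
  | some (Sum.inl i), some (Sum.inr _) => i = i0
  | _, _ => False

theorem greedyF {V : Type} (G : SimpleGraph V) (q : V → ℕ) :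
    ∀ S0 : Finset V,
      (∀ S ⊆ S0, S.Nonempty → ∃ v ∈ S, (S.filter (fun u => G.Adj v u)).card < q v) →
      ∃ c : V → ℕ, (∀ v ∈ S0, c v < q v) ∧ ∀ u ∈ S0, ∀ v ∈ S0, G.Adj u v → c u ≠ c v := by
  intro S0
  induction S0 using Finset.strongInduction with
  | H S0 ih =>
    intro h
    rcases S0.eq_empty_or_nonempty with rfl | hne
    · exact ⟨fun _ => 0, by simp, by simp⟩
    · obtain ⟨v, hv, hcard⟩ := h S0 (Finset.Subset.refl _) hne
      obtain ⟨c, hc1, hc2⟩ := ih (S0.erase v) (Finset.erase_ssubset hv)
        (fun S hS hSne => h S (hS.trans (Finset.erase_subset _ _)) hSne)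
      have hex : ∃ x ∈ Finset.range (q v),
          x ∉ ((S0.filter (fun u => G.Adj v u)).image c) := by
        by_contra hcon
        push Not at hcon
        have h1 : Finset.range (q v) ⊆ (S0.filter (fun u => G.Adj v u)).image c := hcon
        have h2 := Finset.card_le_card h1
        rw [Finset.card_range] at h2
        have h3 := h2.trans Finset.card_image_le
        omega
      obtain ⟨x, hx, hxn⟩ := hex
      rw [Finset.mem_image] at hxn
      push Not at hxn
      refine ⟨Function.update c v x, ?_, ?_⟩
      · intro u hu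
        by_cases huv : u = v
        · subst huv
          simpa using hx
        · rw [Function.update_of_ne huv]
          exact hc1 u (Finset.mem_erase.2 ⟨huv, hu⟩)
      · intro u hu w hw huw
        by_cases huv : u = v
        · subst huv
          have hwu : w ≠ u := fun h => G.loopless.irrefl _ (h ▸ huw)
          rw [Function.update_self, Function.update_of_ne hwu]
          exact fun h => hxn w (Finset.mem_filter.2 ⟨hw, huw⟩) h.symm
        · by_cases hwv : w = v
          · subst hwv
            rw [Function.update_self, Function.update_of_ne huv]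
            exact fun h => hxn u (Finset.mem_filter.2 ⟨hu, huw.symm⟩) h
          · rw [Function.update_of_ne huv, Function.update_of_ne hwv]
            exact hc2 u (Finset.mem_erase.2 ⟨huv, hu⟩) w (Finset.mem_erase.2 ⟨hwv, hw⟩) huw

theorem far_embed {V : Type} (D : V → V → Prop) (hD : IsOriented D) (d : ℕ) (i0 : Fin d)
    (x u w : V) (N : Finset V) (hN : ∀ y ∈ N, D x y) (hu : u ∈ N) (huw : D u w)
    (hc : d ≤ (N.erase w).card) : Contains D (farStar d i0) := by
  have irr : ∀ u, ¬ D u u := fun u h => hD u u h h
  have hxw : x ≠ w := fun h => hD _ _ (hN u hu) (h ▸ huw)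
  have huw' : u ≠ w := fun h => irr u (by rw [← h] at huw; exact huw)
  have hu' : u ∈ N.erase w := Finset.mem_erase.2 ⟨huw', hu⟩
  have hcard : ((N.erase w).erase u).card = (N.erase w).card - 1 := Finset.card_erase_of_mem hu'
  have r' : Nonempty ({i : Fin d // i ∈ ({i0} : Finset (Fin d))ᶜ} ↪
      {y // y ∈ (N.erase w).erase u}) := by
    apply Function.Embedding.nonempty_of_card_le
    rw [Fintype.card_coe, Fintype.card_coe, Finset.card_compl, Fintype.card_fin,
      Finset.card_singleton, hcard]
    omega
  obtain ⟨r⟩ := r'
  have hmem : ∀ i : Fin d, i ≠ i0 → i ∈ ({i0} : Finset (Fin d))ᶜ := by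
    intro i hi
    rw [Finset.mem_compl, Finset.mem_singleton]
    exact hi
  let a : Fin d → V := fun i => if h : i = i0 then u else (r ⟨i, hmem i h⟩).1
  have ha1 : a i0 = u := dif_pos rfl
  have ha2 : ∀ i (h : i ≠ i0), a i = (r ⟨i, hmem i h⟩).1 := fun i h => dif_neg h
  have hr : ∀ y, (r y).1 ≠ u ∧ (r y).1 ≠ w ∧ (r y).1 ∈ N := by
    intro y
    have h := (r y).2
    rw [Finset.mem_erase, Finset.mem_erase] at h
    exact h
  have haN : ∀ i, a i ∈ N ∧ a i ≠ w := by
    intro i
    by_cases h : i = i0
    · subst h
      rw [ha1]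
      exact ⟨hu, huw'⟩
    · rw [ha2 i h]
      exact ⟨(hr _).2.2, (hr _).2.1⟩
  have hainj : Function.Injective a := by
    intro i j hij
    by_cases hi : i = i0
    · by_cases hj : j = i0
      · rw [hi, hj]
      · rw [hi, ha1, ha2 j hj] at hij
        exact absurd hij.symm (hr _).1
    · by_cases hj : j = i0
      · rw [hj, ha1, ha2 i hi] at hij
        exact absurd hij (hr _).1
      · rw [ha2 i hi, ha2 j hj] at hij
        have := r.injective (Subtype.ext hij)
        simpa using this
  have hxa : ∀ i, x ≠ a i := fun i h => irr x (by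
    have := hN _ (haN i).1
    rwa [← h] at this)
  let f : Option (Fin d ⊕ Unit) → V := fun y => match y with
    | none => x
    | some (Sum.inl i) => a i
    | some (Sum.inr _) => w
  refine ⟨f, ?_, ?_⟩
  · rintro (_ | i | i) (_ | j | j) hij
    · rfl
    · exact absurd hij (hxa j)
    · exact absurd hij hxw
    · exact absurd hij.symm (hxa i)
    · have h : a i = a j := hij
      rw [hainj h]
    · exact absurd hij (haN i).2
    · exact absurd hij.symm hxw
    · exact absurd hij.symm (haN j).2
    · rfl
  · rintro (_ | i | i) (_ | j | j) hij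
    · exact absurd hij (by simp [farStar])
    · exact hN _ (haN j).1
    · exact absurd hij (by simp [farStar])
    · exact absurd hij (by simp [farStar])
    · exact absurd hij (by simp [farStar])
    · have h : i = i0 := hij
      subst h
      change D (a i) w
      rw [ha1]
      exact huw
    · exact absurd hij (by simp [farStar])
    · exact absurd hij (by simp [farStar])
    · exact absurd hij (by simp [farStar])

theorem far_color (d : ℕ) (i0 : Fin d) (hd : 2 ≤ d) (V : Type) [Finite V] (D : V → V → Prop)
    (hD : IsOriented D) (hc : ¬ Contains D (farStar d i0)) :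
    (SimpleGraph.fromRel D).Colorable (2 * d - 1) := by
  have := Fintype.ofFinite V
  let out : V → Finset V := fun x => Finset.univ.filter (fun y => D x y)
  have mo : ∀ x y, y ∈ out x ↔ D x y := fun x y => by simp [out]
  have key : ∀ x u w, D x u → D u w → d ≤ (out x).card → (out x).card = d ∧ D x w := by
    intro x u w hxu huw hx
    have h1 : ((out x).erase w).card < d := by
      by_contra hlt
      exact hc (far_embed D hD d i0 x u w (out x) (fun y hy => (mo x y).1 hy) ((mo x u).2 hxu) huw
        (by omega))
    by_cases hw : w ∈ out x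
    · have h2 := Finset.card_erase_of_mem hw
      exact ⟨by omega, (mo x w).1 hw⟩
    · rw [Finset.erase_eq_of_notMem hw] at h1
      omega
  -- the vertices of large out-degree are independent
  have indep : ∀ x y, d ≤ (out x).card → d ≤ (out y).card → ¬ D x y := by
    intro x y hx hy hxy
    have hne : (out y).Nonempty := Finset.card_pos.1 (by omega)
    obtain ⟨w, hw⟩ := hne
    have h1 := (key x y w hxy ((mo y w).1 hw) hx).1
    have hsub : out y ⊆ (out x).erase y := by
      intro w hw
      rw [Finset.mem_erase]
      refine ⟨?_, (mo x w).2 (key x y w hxy ((mo y w).1 hw) hx).2⟩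
      intro h
      subst h
      exact hD _ _ ((mo w w).1 hw) ((mo w w).1 hw)
    have h2 := Finset.card_le_card hsub
    rw [Finset.card_erase_of_mem ((mo x y).2 hxy)] at h2
    omega
  let R := Finset.univ.filter (fun v : V => (out v).card < d)
  have mR : ∀ v, v ∈ R ↔ (out v).card < d := fun v => by simp [R]
  -- the regular closed sets
  have closed : ∀ S ⊆ R, (∀ v ∈ S, 2 * d - 2 ≤
      (S.filter (fun u => (SimpleGraph.fromRel D).Adj v u)).card) →
      ∀ v ∈ S, out v ⊆ S ∧ (out v).card = d - 1 := by
    intro S hS hdeg
    have hle : ∀ v ∈ S, (S.filter (fun u => D v u)).card ≤ d - 1 := by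
      intro v hv
      have h1 := (mR v).1 (hS hv)
      have h2 : (S.filter (fun u => D v u)).card ≤ (out v).card :=
        Finset.card_le_card (Finset.filter_subset_filter _ (Finset.subset_univ _))
      omega
    have hsum : ∑ v ∈ S, (2 * d - 2) ≤
        ∑ v ∈ S, ((S.filter (fun u => D v u)).card + (S.filter (fun u => D u v)).card) :=
      Finset.sum_le_sum (fun v hv => (hdeg v hv).trans (adj_card_le D S v))
    rw [Finset.sum_add_distrib, ← sum_out_eq_sum_in D S] at hsum
    have hsum2 : ∑ v ∈ S, (2 * d - 2) = 2 * ∑ v ∈ S, (d - 1) := by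
      rw [Finset.mul_sum]
      apply Finset.sum_congr rfl
      intro _ _
      omega
    have heq : ∀ v ∈ S, (S.filter (fun u => D v u)).card = d - 1 := by
      intro v hv
      by_contra hne
      have hlt : ∑ v ∈ S, (S.filter (fun u => D v u)).card < ∑ v ∈ S, (d - 1) :=
        Finset.sum_lt_sum hle ⟨v, hv, lt_of_le_of_ne (hle v hv) hne⟩
      omega
    intro v hv
    have h1 := (mR v).1 (hS hv)
    have hsub : S.filter (fun u => D v u) ⊆ out v :=
      Finset.filter_subset_filter _ (Finset.subset_univ _)
    have h2 := Finset.card_le_card hsub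
    have h3 := heq v hv
    have h4 : S.filter (fun u => D v u) = out v := Finset.eq_of_subset_of_card_le hsub (by omega)
    refine ⟨?_, by rw [← h4]; exact h3⟩
    rw [← h4]
    exact Finset.filter_subset _ _
  let Z : Set V := {v | ∃ S ⊆ R, v ∈ S ∧ ∀ u ∈ S, 2 * d - 2 ≤
      (S.filter (fun w => (SimpleGraph.fromRel D).Adj u w)).card}
  have hZ : ∀ z ∈ Z, ∀ x, d ≤ (out x).card → ¬ D z x ∧ ¬ D x z := by
    rintro z ⟨S, hS, hzS, hdeg⟩ x hx
    have hcl := closed S hS hdeg
    constructor
    · intro hzx
      have h1 := (mR x).1 (hS ((hcl z hzS).1 ((mo z x).2 hzx)))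
      omega
    · intro hxz
      let K := out x ∩ S
      have hzK : z ∈ K := Finset.mem_inter.2 ⟨(mo x z).2 hxz, hzS⟩
      have hne : (out z).Nonempty := Finset.card_pos.1 (by have := (hcl z hzS).2; omega)
      obtain ⟨w, hw⟩ := hne
      have hxd := (key x z w hxz ((mo z w).1 hw) hx).1
      have hK : ∀ u ∈ K, (K.filter (fun y => D u y)).card = d - 1 := by
        intro u hu
        have huK := Finset.mem_inter.1 hu
        rw [← (hcl u huK.2).2]
        congr 1
        ext y
        rw [Finset.mem_filter, mo]
        constructor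
        · exact fun h => h.2
        · intro h
          exact ⟨Finset.mem_inter.2 ⟨(mo x y).2 (key x u y ((mo x u).1 huK.1) h hx).2,
            (hcl u huK.2).1 ((mo u y).2 h)⟩, h⟩
      have h1 := two_mul_arcs D hD K
      rw [← sum_out_eq_sum_in D K, Finset.sum_congr rfl hK, Finset.sum_const, smul_eq_mul] at h1
      have hKpos : 0 < K.card := Finset.card_pos.2 ⟨z, hzK⟩
      have h2 : K.card * (2 * (d - 1)) ≤ K.card * (K.card - 1) := by
        calc K.card * (2 * (d - 1)) = 2 * (K.card * (d - 1)) := by ring
          _ ≤ K.card * (K.card - 1) := h1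
      have h3 := Nat.le_of_mul_le_mul_left h2 hKpos
      have h4 : K.card ≤ (out x).card := Finset.card_le_card Finset.inter_subset_left
      omega
  let q : V → ℕ := fun v => if v ∈ Z then 2 * d - 1 else 2 * d - 2
  obtain ⟨c, c1, c2⟩ := greedyF (SimpleGraph.fromRel D) q R (by
    intro S hS hSne
    by_contra hno
    push Not at hno
    have h1 : ∀ v ∈ S, 2 * d - 2 ≤
        (S.filter (fun u => (SimpleGraph.fromRel D).Adj v u)).card := by
      intro v hv
      refine le_trans (le_trans (b := q v) ?_ (hno v hv)) (le_of_eq (by congr))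
      simp only [q]
      split_ifs <;> omega
    obtain ⟨v, hv, h2⟩ := exists_low D S hSne (d - 1) (fun v hv => by
      have h1 := (mR v).1 (hS hv)
      have h2 : (S.filter (fun u => D v u)).card ≤ (out v).card :=
        Finset.card_le_card (Finset.filter_subset_filter _ (Finset.subset_univ _))
      omega)
    have hvZ : v ∈ Z := ⟨S, hS, hv, h1⟩
    have h3 := hno v hv
    have h4 : q v = 2 * d - 1 := if_pos hvZ
    have h5 : q v ≤ 2 * (d - 1) := le_trans h3 (le_trans (le_of_eq (by congr)) h2)
    omega)
  have hq : ∀ v, q v ≤ 2 * d - 1 := by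
    intro v
    simp only [q]
    split_ifs <;> omega
  have hlt : ∀ v, (if v ∈ R then c v else 2 * d - 2) < 2 * d - 1 := by
    intro v
    split_ifs with h
    · exact lt_of_lt_of_le (c1 v h) (hq v)
    · omega
  have main : ∀ u v, (SimpleGraph.fromRel D).Adj u v → u ∈ R → v ∉ R →
      c u ≠ 2 * d - 2 := by
    intro u v huv hu hv heq
    have hvd : d ≤ (out v).card := by
      by_contra hlt
      exact hv ((mR v).2 (by omega))
    have huZ : u ∈ Z := by
      by_contra hZu
      have h1 := c1 u hu
      have h2 : q u = 2 * d - 2 := if_neg hZu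
      omega
    have h3 := hZ u huZ v hvd
    rw [SimpleGraph.fromRel_adj] at huv
    tauto
  refine ⟨SimpleGraph.Coloring.mk
    (fun v => (⟨if v ∈ R then c v else 2 * d - 2, hlt v⟩ : Fin (2 * d - 1))) ?_⟩
  intro u v huv heq
  have heq' : (if u ∈ R then c u else 2 * d - 2) = (if v ∈ R then c v else 2 * d - 2) := by
    simpa using heq
  by_cases hu : u ∈ R
  · by_cases hv : v ∈ R
    · rw [if_pos hu, if_pos hv] at heq'
      exact c2 u hu v hv huv heq'
    · rw [if_pos hu, if_neg hv] at heq'
      exact main u v huv hu hv heq'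
  · by_cases hv : v ∈ R
    · rw [if_neg hu, if_pos hv] at heq'
      exact main v u huv.symm hv hu heq'.symm
    · have h1 : d ≤ (out u).card := by
        by_contra hlt
        exact hu ((mR u).2 (by omega))
      have h2 : d ≤ (out v).card := by
        by_contra hlt
        exact hv ((mR v).2 (by omega))
      rw [SimpleGraph.fromRel_adj] at huv
      rcases huv.2 with h | h
      · exact indep u v h1 h2 h
      · exact indep v u h2 h1 h

theorem farStar_result (d : ℕ) (i0 : Fin d) (hd : 2 ≤ d) :
    IsLeast (TSet (farStar d i0)) (2 * d) ∧ IsLeast (CSet (farStar d i0)) (2 * d) := by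
  have h := master (farStar d i0) (2 * d - 1)
    (fun V _ D hD hc => far_color d i0 hd V D hD hc) (by
      obtain ⟨D, hD, h1, -⟩ := regular d
      refine ⟨D, hD, ?_⟩
      rintro ⟨f, hf, hT⟩
      refine h1 (f none) ⟨fun i => f (some (Sum.inl i)), ?_, fun i => hT _ _ trivial⟩
      intro i j hij
      have := hf hij
      simpa using this)
  have h2 : 2 * d - 1 + 1 = 2 * d := by omega
  rwa [h2] at h

end Pool.Agent.H698ST
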