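import Mathlib

set_option autoImplicit false

/-! # Tournament and chromatic thresholds: general facts -/

namespace Pool.Agent.H698ST

open Finset

/-- `D` is an oriented graph: no loops, no pairs of opposite arcs. -/
def IsOriented {V : Type} (D : V → V → Prop) : Prop := ∀ u v, D u v → ¬ D v u

/-- `D` is a tournament. -/
def IsTournament {V : Type} (D : V → V → Prop) : Prop :=
  IsOriented D ∧ ∀ u v, u ≠ v → D u v ∨ D v u

/-- `D` contains a copy of `T`. -/
def Contains {V W : Type} (D : V → V → Prop) (T : W → W → Prop) : Prop :=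
  ∃ f : W → V, Function.Injective f ∧ ∀ a b, T a b → D (f a) (f b)

/-- All `n` such that every tournament with `n` vertices contains `T`. -/
def TSet {W : Type} (T : W → W → Prop) : Set ℕ :=
  {n | ∀ D : Fin n → Fin n → Prop, IsTournament D → Contains D T}

/-- All `n` such that every finite oriented graph with chromatic number `n` contains `T`. -/
def CSet {W : Type} (T : W → W → Prop) : Set ℕ :=
  {n | ∀ (V : Type) [Finite V] (D : V → V → Prop), IsOriented D →
    (SimpleGraph.fromRel D).chromaticNumber = n → Contains D T}

theorem tournament_top {n : ℕ} {D : Fin n → Fin n → Prop} (h : IsTournament D) :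
    SimpleGraph.fromRel D = ⊤ := by
  ext u v
  simp only [SimpleGraph.fromRel_adj, SimpleGraph.top_adj]
  constructor
  · exact fun h => h.1
  · exact fun hne => ⟨hne, h.2 u v hne⟩

theorem tournament_chi {n : ℕ} {D : Fin n → Fin n → Prop} (h : IsTournament D) :
    (SimpleGraph.fromRel D).chromaticNumber = n := by
  rw [tournament_top h, SimpleGraph.chromaticNumber_top]
  simp

theorem restrict {N n : ℕ} (hn : n ≤ N) {D : Fin N → Fin N → Prop} (h : IsTournament D) :
    IsTournament (fun i j : Fin n => D (Fin.castLE hn i) (Fin.castLE hn j)) := by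
  refine ⟨fun u v huv => h.1 _ _ huv, fun u v huv => h.2 _ _ ?_⟩
  intro heq
  apply huv
  exact Fin.castLE_injective hn heq

theorem contains_of_restrict {W : Type} {T : W → W → Prop} {N n : ℕ} (hn : n ≤ N)
    {D : Fin N → Fin N → Prop}
    (h : Contains (fun i j : Fin n => D (Fin.castLE hn i) (Fin.castLE hn j)) T) :
    Contains D T := by
  obtain ⟨f, hf, hT⟩ := h
  exact ⟨fun w => Fin.castLE hn (f w), (Fin.castLE_injective hn).comp hf, fun a b hab => hT a b hab⟩

/-- The general principle: if all `T`-free oriented graphs are `N`-colourable and some tournament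
with `N` vertices is `T`-free, then both thresholds are equal to `N + 1`. -/
theorem master {W : Type} (T : W → W → Prop) (N : ℕ)
    (h1 : ∀ (V : Type) [Finite V] (D : V → V → Prop), IsOriented D → ¬ Contains D T →
      (SimpleGraph.fromRel D).Colorable N)
    (h2 : ∃ D : Fin N → Fin N → Prop, IsTournament D ∧ ¬ Contains D T) :
    IsLeast (TSet T) (N + 1) ∧ IsLeast (CSet T) (N + 1) := by
  have key : (N + 1) ∈ CSet T := by
    intro V _ D hD hchi
    by_contra hc
    have := (h1 V D hD hc).chromaticNumber_le
    rw [hchi] at this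
    have h3 : ((N + 1 : ℕ) : ℕ∞) ≤ (N : ℕ∞) := this
    have h4 : N + 1 ≤ N := by exact_mod_cast h3
    omega
  obtain ⟨D, hD, hDT⟩ := h2
  refine ⟨⟨?_, ?_⟩, ⟨key, ?_⟩⟩
  · intro D' hD'
    exact key (Fin (N + 1)) D' hD'.1 (tournament_chi hD')
  · intro n hn
    by_contra hlt
    have hn' : n ≤ N := by omega
    exact hDT (contains_of_restrict hn' (hn _ (restrict hn' hD)))
  · intro n hn
    by_contra hlt
    have hn' : n ≤ N := by omega
    exact hDT (contains_of_restrict hn' (hn (Fin n) _ (restrict hn' hD).1
      (tournament_chi (restrict hn' hD))))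

end Pool.Agent.H698ST
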