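import Pool.Agent.H698ST.Master

set_option autoImplicit false

/-! # Greedy colouring, regular tournaments, oriented stars -/

namespace Pool.Agent.H698ST

open Finset Classical

theorem greedy {V : Type} (G : SimpleGraph V) (q : ℕ) :
    ∀ S0 : Finset V, (∀ S ⊆ S0, S.Nonempty → ∃ v ∈ S, (S.filter (fun u => G.Adj v u)).card < q) →
      ∃ c : V → ℕ, (∀ v ∈ S0, c v < q) ∧ ∀ u ∈ S0, ∀ v ∈ S0, G.Adj u v → c u ≠ c v := by
  intro S0
  induction S0 using Finset.strongInduction with
  | H S0 ih =>
    intro h
    rcases S0.eq_empty_or_nonempty with rfl | hne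
    · exact ⟨fun _ => 0, by simp, by simp⟩
    · obtain ⟨v, hv, hcard⟩ := h S0 (Finset.Subset.refl _) hne
      obtain ⟨c, hc1, hc2⟩ := ih (S0.erase v) (Finset.erase_ssubset hv)
        (fun S hS hSne => h S (hS.trans (Finset.erase_subset _ _)) hSne)
      have hex : ∃ x ∈ Finset.range q, x ∉ ((S0.filter (fun u => G.Adj v u)).image c) := by
        by_contra hcon
        push Not at hcon
        have h1 : Finset.range q ⊆ (S0.filter (fun u => G.Adj v u)).image c := hcon
        have h2 := Finset.card_le_card h1
        rw [Finset.card_range] at h2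
        have h3 := h2.trans Finset.card_image_le
        omega
      obtain ⟨x, hx, hxn⟩ := hex
      rw [Finset.mem_image] at hxn
      push Not at hxn
      refine ⟨Function.update c v x, ?_, ?_⟩
      · intro u hu
        by_cases huv : u = v
        · subst huv
          simpa using hx
        · rw [Function.update_of_ne huv]
          exact hc1 u (Finset.mem_erase.2 ⟨huv, hu⟩)
      · intro u hu w hw huw
        by_cases huv : u = v
        · subst huv
          have hwu : w ≠ u := fun h => G.loopless.irrefl _ (h ▸ huw)
          rw [Function.update_self, Function.update_of_ne hwu]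
          exact fun h => hxn w (Finset.mem_filter.2 ⟨hw, huw⟩) h.symm
        · by_cases hwv : w = v
          · subst hwv
            rw [Function.update_self, Function.update_of_ne huv]
            exact fun h => hxn u (Finset.mem_filter.2 ⟨hu, huw.symm⟩) h
          · rw [Function.update_of_ne huv, Function.update_of_ne hwv]
            exact hc2 u (Finset.mem_erase.2 ⟨huv, hu⟩) w (Finset.mem_erase.2 ⟨hwv, hw⟩) huw

theorem sum_out_eq_sum_in {V : Type} (D : V → V → Prop) (S : Finset V) :
    ∑ v ∈ S, (S.filter (fun u => D v u)).card = ∑ v ∈ S, (S.filter (fun u => D u v)).card := by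
  have := Finset.sum_card_bipartiteAbove_eq_sum_card_bipartiteBelow (s := S) (t := S) D
  simpa [Finset.bipartiteAbove, Finset.bipartiteBelow] using this

/-- the neighbours are the out- and the in-neighbours -/
theorem adj_card_le {V : Type} (D : V → V → Prop) (S : Finset V) (v : V) :
    (S.filter (fun u => (SimpleGraph.fromRel D).Adj v u)).card ≤
      (S.filter (fun u => D v u)).card + (S.filter (fun u => D u v)).card := by
  refine le_trans (Finset.card_le_card ?_) (Finset.card_union_le _ _)
  intro u hu
  rw [Finset.mem_filter, SimpleGraph.fromRel_adj] at hu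
  rw [Finset.mem_union, Finset.mem_filter, Finset.mem_filter]
  rcases hu.2.2 with h | h
  · exact Or.inl ⟨hu.1, h⟩
  · exact Or.inr ⟨hu.1, h⟩

theorem exists_low {V : Type} (D : V → V → Prop) (S : Finset V) (hS : S.Nonempty) (r : ℕ)
    (h : ∀ v ∈ S, (S.filter (fun u => D v u)).card ≤ r) :
    ∃ v ∈ S, (S.filter (fun u => (SimpleGraph.fromRel D).Adj v u)).card ≤ 2 * r := by
  have h1 : ∃ v ∈ S, (S.filter (fun u => D u v)).card ≤ r := by
    by_contra hcon
    push Not at hcon
    have h2 : ∑ v ∈ S, r < ∑ v ∈ S, (S.filter (fun u => D u v)).card :=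
      Finset.sum_lt_sum_of_nonempty hS hcon
    have h3 : ∑ v ∈ S, (S.filter (fun u => D v u)).card ≤ ∑ v ∈ S, r := Finset.sum_le_sum h
    rw [sum_out_eq_sum_in] at h3
    omega
  obtain ⟨v, hv, h4⟩ := h1
  refine ⟨v, hv, (adj_card_le D S v).trans ?_⟩
  have := h v hv
  omega

theorem exists_low' {V : Type} (D : V → V → Prop) (S : Finset V) (hS : S.Nonempty) (r : ℕ)
    (h : ∀ v ∈ S, (S.filter (fun u => D u v)).card ≤ r) :
    ∃ v ∈ S, (S.filter (fun u => (SimpleGraph.fromRel D).Adj v u)).card ≤ 2 * r := by
  obtain ⟨v, hv, h1⟩ := exists_low (fun a b => D b a) S hS r h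
  refine ⟨v, hv, le_trans (le_of_eq ?_) h1⟩
  congr 1
  ext u
  simp only [Finset.mem_filter, SimpleGraph.fromRel_adj]
  tauto

/-- The oriented star with `d` out-leaves and `e` in-leaves. -/
def star (d e : ℕ) : Option (Fin d ⊕ Fin e) → Option (Fin d ⊕ Fin e) → Prop
  | none, some (Sum.inl _) => True
  | some (Sum.inr _), none => True
  | _, _ => False

theorem contains_star {V : Type} [Fintype V] (D : V → V → Prop) (hD : IsOriented D) (d e : ℕ)
    (v : V) (h1 : d ≤ (Finset.univ.filter (fun u => D v u)).card)
    (h2 : e ≤ (Finset.univ.filter (fun u => D u v)).card) : Contains D (star d e) := by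
  have e1 : Nonempty (Fin d ↪ {u // u ∈ Finset.univ.filter (fun u => D v u)}) := by
    apply Function.Embedding.nonempty_of_card_le
    rw [Fintype.card_fin, Fintype.card_coe]
    exact h1
  have e2 : Nonempty (Fin e ↪ {u // u ∈ Finset.univ.filter (fun u => D u v)}) := by
    apply Function.Embedding.nonempty_of_card_le
    rw [Fintype.card_fin, Fintype.card_coe]
    exact h2
  obtain ⟨f1⟩ := e1
  obtain ⟨f2⟩ := e2
  have p1 : ∀ i, D v (f1 i).1 := fun i => (Finset.mem_filter.1 (f1 i).2).2
  have p2 : ∀ i, D (f2 i).1 v := fun i => (Finset.mem_filter.1 (f2 i).2).2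
  have irr : ∀ u, ¬ D u u := fun u h => hD u u h h
  let f : Option (Fin d ⊕ Fin e) → V := fun x => match x with
    | none => v
    | some (Sum.inl i) => (f1 i).1
    | some (Sum.inr i) => (f2 i).1
  refine ⟨f, ?_, ?_⟩
  · rintro (_ | i | i) (_ | j | j) hij
    · rfl
    · exact absurd (p1 j) (by have : v = (f1 j).1 := hij; rw [← this]; exact irr v)
    · exact absurd (p2 j) (by have : v = (f2 j).1 := hij; rw [← this]; exact irr v)
    · exact absurd (p1 i) (by have : (f1 i).1 = v := hij; rw [this]; exact irr v)
    · have : (f1 i).1 = (f1 j).1 := hij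
      rw [f1.injective (Subtype.ext this)]
    · have h3 : (f1 i).1 = (f2 j).1 := hij
      exact absurd (p2 j) (hD _ _ (h3 ▸ p1 i))
    · exact absurd (p2 i) (by have : (f2 i).1 = v := hij; rw [this]; exact irr v)
    · have h3 : (f2 i).1 = (f1 j).1 := hij
      exact absurd (p1 j) (hD _ _ (h3 ▸ p2 i))
    · have : (f2 i).1 = (f2 j).1 := hij
      rw [f2.injective (Subtype.ext this)]
  · rintro (_ | i | i) (_ | j | j) hij
    all_goals first | exact p1 _ | exact p2 _ | exact absurd hij (by simp [star])

theorem star_color (d e : ℕ) (V : Type) [Finite V] (D : V → V → Prop) (hD : IsOriented D)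
    (hc : ¬ Contains D (star d e)) :
    (SimpleGraph.fromRel D).Colorable ((2 * d - 1) + (2 * e - 1)) := by
  have := Fintype.ofFinite V
  let A := Finset.univ.filter (fun v : V => (Finset.univ.filter (fun u => D v u)).card < d)
  let B := Finset.univ.filter (fun v : V => (Finset.univ.filter (fun u => D u v)).card < e)
  have hAB : ∀ v, v ∉ A → v ∈ B := by
    intro v hv
    have hv' : d ≤ (Finset.univ.filter (fun u => D v u)).card := by
      by_contra hlt
      exact hv (Finset.mem_filter.2 ⟨Finset.mem_univ _, by omega⟩)
    refine Finset.mem_filter.2 ⟨Finset.mem_univ _, ?_⟩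
    by_contra hge
    exact hc (contains_star D hD d e v hv' (by omega))
  obtain ⟨cA, a1, a2⟩ := greedy (SimpleGraph.fromRel D) (2 * d - 1) A (by
    intro S hS hSne
    have hd : ∀ v ∈ S, (Finset.univ.filter (fun u => D v u)).card < d := fun v hv =>
      (Finset.mem_filter.1 (hS hv)).2
    have hd1 : 1 ≤ d := by
      obtain ⟨v, hv⟩ := hSne
      have := hd v hv
      omega
    obtain ⟨v, hv, h⟩ := exists_low D S hSne (d - 1) (by
      intro v hv
      have h1 := hd v hv
      have h2 : (S.filter (fun u => D v u)).card ≤ (Finset.univ.filter (fun u => D v u)).card :=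
        Finset.card_le_card (Finset.filter_subset_filter _ (Finset.subset_univ _))
      omega)
    refine ⟨v, hv, lt_of_le_of_lt (le_trans (le_of_eq ?_) h) (?_ : 2 * (d - 1) < 2 * d - 1)⟩
    · congr
    · omega)
  obtain ⟨cB, b1, b2⟩ := greedy (SimpleGraph.fromRel D) (2 * e - 1) B (by
    intro S hS hSne
    have hd : ∀ v ∈ S, (Finset.univ.filter (fun u => D u v)).card < e := fun v hv =>
      (Finset.mem_filter.1 (hS hv)).2
    have hd1 : 1 ≤ e := by
      obtain ⟨v, hv⟩ := hSne
      have := hd v hv
      omega
    obtain ⟨v, hv, h⟩ := exists_low' D S hSne (e - 1) (by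
      intro v hv
      have h1 := hd v hv
      have h2 : (S.filter (fun u => D u v)).card ≤ (Finset.univ.filter (fun u => D u v)).card :=
        Finset.card_le_card (Finset.filter_subset_filter _ (Finset.subset_univ _))
      omega)
    refine ⟨v, hv, lt_of_le_of_lt (le_trans (le_of_eq ?_) h) (?_ : 2 * (e - 1) < 2 * e - 1)⟩
    · congr
    · omega)
  have hlt : ∀ v, (if v ∈ A then cA v else (2 * d - 1) + cB v) < (2 * d - 1) + (2 * e - 1) := by
    intro v
    split_ifs with h
    · have := a1 v h
      omega
    · have := b1 v (hAB v h)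
      omega
  refine ⟨SimpleGraph.Coloring.mk
    (fun v => (⟨if v ∈ A then cA v else (2 * d - 1) + cB v, hlt v⟩ :
      Fin ((2 * d - 1) + (2 * e - 1)))) ?_⟩
  intro u v huv heq
  have heq' : (if u ∈ A then cA u else (2 * d - 1) + cB u) =
      (if v ∈ A then cA v else (2 * d - 1) + cB v) := by
    simpa using heq
  by_cases hu : u ∈ A
  · by_cases hv : v ∈ A
    · rw [if_pos hu, if_pos hv] at heq'
      exact a2 u hu v hv huv heq'
    · rw [if_pos hu, if_neg hv] at heq'
      have := a1 u hu
      omega
  · by_cases hv : v ∈ A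
    · rw [if_neg hu, if_pos hv] at heq'
      have := a1 v hv
      omega
    · rw [if_neg hu, if_neg hv] at heq'
      exact b2 u (hAB u hu) v (hAB v hv) huv (by omega)

/-- A tournament with `2 d - 1` vertices all of whose out- and in-degrees are less than `d`. -/
theorem regular (d : ℕ) : ∃ D : Fin (2 * d - 1) → Fin (2 * d - 1) → Prop, IsTournament D ∧
    (∀ v, ¬ ∃ F : Fin d → Fin (2 * d - 1), Function.Injective F ∧ ∀ i, D v (F i)) ∧
    (∀ v, ¬ ∃ F : Fin d → Fin (2 * d - 1), Function.Injective F ∧ ∀ i, D (F i) v) := by
  refine ⟨fun i j => (i.val < j.val ∧ j.val < i.val + d) ∨ (j.val + d ≤ i.val), ⟨?_, ?_⟩, ?_, ?_⟩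
  · intro u v h1 h2
    omega
  · intro u v huv
    have : u.val ≠ v.val := fun h => huv (Fin.ext h)
    omega
  · rintro v ⟨F, hF, h⟩
    have hd : 1 ≤ d := by
      have := v.2
      omega
    let g : Fin d → ℕ := fun i =>
      if v.val < (F i).val then (F i).val - v.val - 1 else (F i).val + (2 * d - 1) - v.val - 1
    have hg : Set.InjOn g (Finset.univ : Finset (Fin d)) := by
      intro i _ j _ hij
      apply hF
      apply Fin.ext
      have hi := h i
      have hj := h j
      have hi2 := (F i).2
      have hj2 := (F j).2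
      have hv2 := v.2
      simp only [g] at hij
      split_ifs at hij <;> omega
    have hm : ∀ i ∈ (Finset.univ : Finset (Fin d)), g i ∈ Finset.range (d - 1) := by
      intro i _
      have hi := h i
      have hi2 := (F i).2
      have hv2 := v.2
      rw [Finset.mem_range]
      simp only [g]
      split_ifs <;> omega
    have := Finset.card_le_card_of_injOn g hm hg
    rw [Finset.card_range, Finset.card_univ, Fintype.card_fin] at this
    omega
  · rintro v ⟨F, hF, h⟩
    have hd : 1 ≤ d := by
      have := v.2
      omega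
    let g : Fin d → ℕ := fun i =>
      if (F i).val < v.val then v.val - (F i).val - 1 else v.val + (2 * d - 1) - (F i).val - 1
    have hg : Set.InjOn g (Finset.univ : Finset (Fin d)) := by
      intro i _ j _ hij
      apply hF
      apply Fin.ext
      have hi := h i
      have hj := h j
      have hi2 := (F i).2
      have hj2 := (F j).2
      have hv2 := v.2
      simp only [g] at hij
      split_ifs at hij <;> omega
    have hm : ∀ i ∈ (Finset.univ : Finset (Fin d)), g i ∈ Finset.range (d - 1) := by
      intro i _
      have hi := h i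
      have hi2 := (F i).2
      have hv2 := v.2
      rw [Finset.mem_range]
      simp only [g]
      split_ifs <;> omega
    have := Finset.card_le_card_of_injOn g hm hg
    rw [Finset.card_range, Finset.card_univ, Fintype.card_fin] at this
    omega

theorem star_lower (d e : ℕ) :
    ∃ D : Fin ((2 * d - 1) + (2 * e - 1)) → Fin ((2 * d - 1) + (2 * e - 1)) → Prop,
      IsTournament D ∧ ¬ Contains D (star d e) := by
  obtain ⟨DA, hA, hA1, -⟩ := regular d
  obtain ⟨DB, hB, -, hB2⟩ := regular e
  let D' : Fin (2 * d - 1) ⊕ Fin (2 * e - 1) → Fin (2 * d - 1) ⊕ Fin (2 * e - 1) → Prop :=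
    fun x y => match x, y with
      | Sum.inl a, Sum.inl b => DA a b
      | Sum.inr a, Sum.inr b => DB a b
      | Sum.inr _, Sum.inl _ => True
      | Sum.inl _, Sum.inr _ => False
  refine ⟨fun i j => D' (finSumFinEquiv.symm i) (finSumFinEquiv.symm j), ⟨?_, ?_⟩, ?_⟩
  · intro u v
    change D' (finSumFinEquiv.symm u) (finSumFinEquiv.symm v) →
      ¬ D' (finSumFinEquiv.symm v) (finSumFinEquiv.symm u)
    generalize finSumFinEquiv.symm u = x
    generalize finSumFinEquiv.symm v = y
    rcases x with a | a <;> rcases y with b | b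
    · exact hA.1 a b
    · intro h; exact h.elim
    · intro _ h; exact h
    · exact hB.1 a b
  · intro u v huv
    have huv' : finSumFinEquiv.symm u ≠ finSumFinEquiv.symm v := fun h =>
      huv (finSumFinEquiv.symm.injective h)
    change D' (finSumFinEquiv.symm u) (finSumFinEquiv.symm v) ∨
      D' (finSumFinEquiv.symm v) (finSumFinEquiv.symm u)
    revert huv'
    generalize finSumFinEquiv.symm u = x
    generalize finSumFinEquiv.symm v = y
    rcases x with a | a <;> rcases y with b | b
    · intro h; exact hA.2 a b (fun h' => h (by rw [h']))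
    · intro _; exact Or.inr trivial
    · intro _; exact Or.inl trivial
    · intro h; exact hB.2 a b (fun h' => h (by rw [h']))
  · rintro ⟨f, hf, hT⟩
    let g : Option (Fin d ⊕ Fin e) → Fin (2 * d - 1) ⊕ Fin (2 * e - 1) :=
      fun x => finSumFinEquiv.symm (f x)
    have hg : Function.Injective g := finSumFinEquiv.symm.injective.comp hf
    have o1 : ∀ i : Fin d, D' (g none) (g (some (Sum.inl i))) := fun i => hT _ _ trivial
    have o2 : ∀ i : Fin e, D' (g (some (Sum.inr i))) (g none) := fun i => hT _ _ trivial
    rcases hv : g none with a | a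
    · apply hA1 a
      have hex : ∀ i : Fin d, ∃ b, g (some (Sum.inl i)) = Sum.inl b ∧ DA a b := by
        intro i
        have h := o1 i
        rw [hv] at h
        rcases hb : g (some (Sum.inl i)) with b | b
        · rw [hb] at h
          exact ⟨b, rfl, h⟩
        · rw [hb] at h
          exact h.elim
      choose F hF using hex
      refine ⟨F, ?_, fun i => (hF i).2⟩
      intro i j hij
      have h3 : g (some (Sum.inl i)) = g (some (Sum.inl j)) := by
        rw [(hF i).1, (hF j).1, hij]
      have h4 := hg h3
      simpa using h4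
    · apply hB2 a
      have hex : ∀ i : Fin e, ∃ b, g (some (Sum.inr i)) = Sum.inr b ∧ DB b a := by
        intro i
        have h := o2 i
        rw [hv] at h
        rcases hb : g (some (Sum.inr i)) with b | b
        · rw [hb] at h
          exact h.elim
        · rw [hb] at h
          exact ⟨b, rfl, h⟩
      choose F hF using hex
      refine ⟨F, ?_, fun i => (hF i).2⟩
      intro i j hij
      have h3 : g (some (Sum.inr i)) = g (some (Sum.inr j)) := by
        rw [(hF i).1, (hF j).1, hij]
      have h4 := hg h3
      simpa using h4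

theorem star_result (d e : ℕ) :
    IsLeast (TSet (star d e)) ((2 * d - 1) + (2 * e - 1) + 1) ∧
      IsLeast (CSet (star d e)) ((2 * d - 1) + (2 * e - 1) + 1) :=
  master (star d e) _ (fun V _ D hD hc => star_color d e V D hD hc) (star_lower d e)

end Pool.Agent.H698ST
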